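import Pool.Agent.H33.Mix2

set_option autoImplicit false

namespace Pool.Agent.Results.MP_378045_ag.Q1

open Pool.Agent.H33.Mix ComplexOrder

/-- A homogeneous real stable polynomial with nonnegative coefficients that is not a mixed
determinant of positive pencils without constant term. -/
theorem result : ∃ (n l : ℕ) (f : MvPolynomial (Fin l) ℝ), f.IsHomogeneous n ∧ IsRealStable f ∧
    (∀ d, 0 ≤ MvPolynomial.coeff d f) ∧
    ∀ (m : ℕ) (A : Fin m → Fin l → Matrix (Fin n) (Fin n) ℂ), (∀ j k, (A j k).PosSemidef) →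
      MvPolynomial.map (algebraMap ℝ ℂ) f ≠ mixedDet (fun j => pencil (A j)) :=
  ⟨2, 7, f, homog, stable, coeff_nonneg, not_rep⟩

end Pool.Agent.Results.MP_378045_ag.Q1
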